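import Pool.Agent.H201.AD.Engine
import Pool.Graph.R_pool_sql_team_seeded_2aa45f1a.Results.MP_f89135_nt.ExactReductions

/-!
# The effective Shafarevich conjecture for curves: boundedly many guesses and few exceptions

Numbers are used as codes: `k` for pairs `(K, T)`, and `x` for curves over `K`. Question Q1 asks for an
algorithm which computes from `K`, `T` and `g ≥ 1` a bound for the heights of all curves of genus `g` over
`K` with good reduction outside `T`. Let `T_j` be the set of the places in `T` and of all places above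
primes `p ≤ j`. `FewExceptions D ext j c e` says that for all pairs `(K, T)` with code at most `j` and all
genera `g` with `2 ≤ g ≤ j`, the curves of genus `g` over `K` with good reduction outside `T_j` fall into
isogeny classes (of Jacobians) of which at most `e` have no member of height at most `c`.

**Theorem.** The following are equivalent.

1. Question Q1.
2. There are a number `l`, a computable function `e`, a decidable set `r` of numbers `j`, and a partial
  algorithm which produces for every `j` in `r` at most `l` numbers such that one of them, `c` say, satisfies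
  `FewExceptions D ext j c (e j)`. (It is not known which one, and not known how many are produced.) The set
  `r` may be as thin as one likes, and `e j` may be anything which is `o(2 ^ π(j))` along `r`, where `π(j)`
  is the number of primes up to `j`.
3. The same with an algorithm which approximates such a number `c` and changes its mind at most `l` times
  for each `j` in `r`.

Besides the facts `IsSetting` of the imported file, quadratic twists of curves with a fixed point free
involution are used (`HasTwists`).
-/

set_option autoImplicit false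

namespace Pool.Agent.Results.MP_f89135_nt.BoundedAdviceFewExceptions

open Pool.Agent.H201.AD
open Pool.Agent.Results.MP_f89135_nt.ExactReductions (Setting IsSetting)

/-- `ext (k, j)` is the code of the pair `(K, T_j)`, where `k` is the code of `(K, T)` and `T_j` is the union
of `T` and of the set of all places above primes `p ≤ j`; it is computable. The fact `twist` is about
quadratic twists. Let `X` be a curve of genus `g ≥ 2` over `K` with good reduction outside `T` on which the
group `S_3` acts over `K` without fixed points. Let `b` be the number of the primes which are ramified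
in `K` or below a place in `T` or equal to `2`. For every set of other primes `p ≤ j` there is a quadratic
character of `K` which is ramified exactly at the places above them. Twist `X` by these characters, using
an involution in `S_3`. The twists are isomorphic to `X` over the algebraic closure, so have the same
(stable) height, and they have good reduction outside `T_j`. The part of the Jacobian on which
the involution acts by `-1` is not zero (it has dimension `(g - 1) / 2`), and it gets bad reduction at
the places at which the character is ramified; so no two of the twists have isogenous Jacobians. -/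
structure HasTwists (D : Setting) (ext : ℕ × ℕ → ℕ) : Prop where
  ext_computable : Computable ext
  twist : ∃ b : ℕ → ℕ, Computable b ∧ ∀ k g j x : ℕ, 2 ≤ g → D.Good k g x → D.Acts 3 x →
    ∃ t : Fin (2 ^ (Nat.primeCounting j - b k)) → ℕ,
      (∀ s, D.Good (ext (k, j)) g (t s) ∧ D.h (t s) = D.h x) ∧
      ∀ s s', D.Isog (t s) (t s') → s = s'

/-- for all `(K, T)` with code `k ≤ j` and all `g` with `2 ≤ g ≤ j`, at most `e` isogeny classes of curves of
genus `g` over `K` with good reduction outside `T_j` have no member of height at most `c` -/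
def FewExceptions (D : Setting) (ext : ℕ × ℕ → ℕ) (j c e : ℕ) : Prop :=
  ∀ k ≤ j, ∀ g ≤ j, 2 ≤ g → ∀ (n : ℕ) (t : Fin n → ℕ),
    (∀ s, D.Good (ext (k, j)) g (t s) ∧
      ∀ y, D.Good (ext (k, j)) g y → D.Isog (t s) y → (c : ℝ) < D.h y) →
    (∀ s s', D.Isog (t s) (t s') → s = s') → n ≤ e

variable {D : Setting} {ext : ℕ × ℕ → ℕ}

/-- the maximum of `c ((ext (k, j), g), m)` for `k, g ≤ i` -/
def mxAll (ext : ℕ × ℕ → ℕ) (c : (ℕ × ℕ) × ℕ → ℕ) (z : (ℕ × ℕ) × ℕ) : ℕ :=
  mxx (fun w : ((ℕ × ℕ) × ℕ) × ℕ =>
    mxx (fun u : (((ℕ × ℕ) × ℕ) × ℕ) × ℕ => c ((ext (u.2, u.1.1.1.2), u.1.2), u.1.1.2)) w w.1.1.1)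
    z z.1.1

lemma mxAll_computable {c : (ℕ × ℕ) × ℕ → ℕ} (he : Computable ext) (hc : Computable c) :
    Computable (mxAll ext c) := by
  have a1 : Computable fun u : (((ℕ × ℕ) × ℕ) × ℕ) × ℕ => (u.2, u.1.1.1.2) :=
    Computable.pair Computable.snd
      (Computable.snd.comp (Computable.fst.comp (Computable.fst.comp Computable.fst)))
  have a2 : Computable fun u : (((ℕ × ℕ) × ℕ) × ℕ) × ℕ =>
      ((ext (u.2, u.1.1.1.2), u.1.2), u.1.1.2) :=
    Computable.pair (Computable.pair (he.comp a1) (Computable.snd.comp Computable.fst))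
      (Computable.snd.comp (Computable.fst.comp Computable.fst))
  have a3 : Computable fun u : (((ℕ × ℕ) × ℕ) × ℕ) × ℕ =>
      c ((ext (u.2, u.1.1.1.2), u.1.2), u.1.1.2) := hc.comp a2
  have a4 := mxx_computable a3
  have a5 : Computable fun w : ((ℕ × ℕ) × ℕ) × ℕ => (w, w.1.1.1) :=
    Computable.pair Computable.id (Computable.fst.comp (Computable.fst.comp Computable.fst))
  have a6 := a4.comp a5
  have a7 := mxx_computable a6
  have a8 : Computable fun z : (ℕ × ℕ) × ℕ => (z, z.1.1) :=
    Computable.pair Computable.id (Computable.fst.comp Computable.fst)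
  exact a7.comp a8

lemma le_mxAll (ext : ℕ × ℕ → ℕ) (c : (ℕ × ℕ) × ℕ → ℕ) {i j m k g : ℕ} (hk : k ≤ i) (hg : g ≤ i) :
    c ((ext (k, j), g), m) ≤ mxAll ext c ((i, j), m) := by
  have h1 := le_mxx (fun u : (((ℕ × ℕ) × ℕ) × ℕ) × ℕ =>
    c ((ext (u.2, u.1.1.1.2), u.1.2), u.1.1.2)) (((i, j), m), g) hk
  have h2 := le_mxx (fun w : ((ℕ × ℕ) × ℕ) × ℕ =>
    mxx (fun u : (((ℕ × ℕ) × ℕ) × ℕ) × ℕ => c ((ext (u.2, u.1.1.1.2), u.1.2), u.1.1.2)) w w.1.1.1)
    ((i, j), m) hg
  exact h1.trans h2

/-- **The effective Shafarevich conjecture for curves: boundedly many guesses and few exceptions.**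
See the explanations above. -/
theorem result (hD : IsSetting D) (hT : HasTwists D ext) : List.TFAE [
    ∃ c : ℕ × ℕ → ℕ, Computable c ∧ ∀ k g x, 1 ≤ g → D.Good k g x → D.h x ≤ c (k, g),
    ∃ (l : ℕ) (e : ℕ → ℕ) (r : ℕ → Bool) (F : ℕ × ℕ →. ℕ), Computable e ∧ Computable r ∧ Partrec F ∧
      (∀ m, ∃ j ≥ m, r j = true ∧ 2 ^ m * e j < 2 ^ Nat.primeCounting j) ∧
      ∀ j, r j = true → ∃ b < l, ∃ c ∈ F (j, b), FewExceptions D ext j c (e j),
    ∃ (l : ℕ) (e : ℕ → ℕ) (r : ℕ → Bool) (G : ℕ × ℕ → ℕ), Computable e ∧ Computable r ∧ Computable G ∧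
      (∀ m, ∃ j ≥ m, r j = true ∧ 2 ^ m * e j < 2 ^ Nat.primeCounting j) ∧
      ∀ j, r j = true → ∃ s₀, (∀ s ≥ s₀, G (j, s) = G (j, s₀)) ∧
        {s | G (j, s + 1) ≠ G (j, s)}.ncard ≤ l ∧ FewExceptions D ext j (G (j, s₀)) (e j)] := by
  tfae_have 1 → 3 := by
    rintro ⟨c, h1, h2⟩
    refine ⟨0, fun _ => 0, fun _ => true, fun x => mxAll ext (fun u => c u.1) ((x.1, x.1), 0),
      Computable.const 0, Computable.const true, ?_, fun m => ⟨m, le_rfl, rfl, ?_⟩,
      fun j _ => ⟨0, fun _ _ => rfl, ?_, ?_⟩⟩
    · have a1 : Computable fun u : (ℕ × ℕ) × ℕ => c u.1 := h1.comp Computable.fst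
      have a2 : Computable fun x : ℕ × ℕ => ((x.1, x.1), 0) :=
        Computable.pair (Computable.pair Computable.fst Computable.fst) (Computable.const 0)
      exact (mxAll_computable hT.ext_computable a1).comp a2
    · simp
    · simp
    · intro k hk g hg hg2 n t h3 _
      rcases Nat.eq_zero_or_pos n with rfl | hn
      · exact le_rfl
      · exfalso
        obtain ⟨h4, h5⟩ := h3 ⟨0, hn⟩
        have h6 := h5 _ h4 ((hD.faltings _ g _ _ hg2 h4 h4).1 rfl)
        have h7 := h2 _ g _ (by omega) h4
        have h8 : (c (ext (k, j), g) : ℝ) ≤ (mxAll ext (fun u => c u.1) ((j, j), 0) : ℝ) := by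
          exact_mod_cast le_mxAll ext (fun u => c u.1) (m := 0) (j := j) hk hg
        exact absurd h6 (not_lt.2 (h7.trans h8))
  tfae_have 3 → 2 := by
    rintro ⟨l, e, r, G, he, hr, hG, hdens, hadv⟩
    obtain ⟨F, hF, h⟩ := bounded_of_mind_changes_exceptions (FewExceptions D ext) l e r G hG hadv
    exact ⟨l + 1, e, r, F, he, hr, hF, hdens, h⟩
  tfae_have 2 → 1 := by
    rintro ⟨l, e, r, F, he, hr, hF, hdens, hadv⟩
    obtain ⟨κ, hκ, hκ'⟩ := hD.isogeny
    obtain ⟨b, hb, htw⟩ := hT.twist
    have hb2 : Computable fun i : ℕ => mxx (fun u : ℕ × ℕ => b u.2) 0 i := by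
      have a1 : Computable fun u : ℕ × ℕ => b u.2 := hb.comp Computable.snd
      exact (mxx_computable a1).comp (Computable.pair (Computable.const 0) Computable.id)
    obtain ⟨C, hC, hC'⟩ := bounded_of_advice_exceptions
      (fun i c => ∀ k ≤ i, ∀ g ≤ i, 2 ≤ g → ∀ x, D.Good k g x → D.Acts 3 x → D.h x ≤ c)
      (FewExceptions D ext) (fun j => 2 ^ Nat.primeCounting j)
      (fun i => 2 ^ mxx (fun u : ℕ × ℕ => b u.2) 0 i) computable_two_pow_primeCounting
      (primrec_two_pow.to_comp.comp hb2) (mxAll ext κ) (mxAll_computable hT.ext_computable hκ)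
      (fun i c c' hc h k hk g hg hg2 x hx hx' => (h k hk g hg hg2 x hx hx').trans (by exact_mod_cast hc))
      (fun i j c hij h k hk g hg => h k (hk.trans hij) g (hg.trans hij))
      (fun i j c e' hij hlt h k hk g hg hg2 x hx hx' => by
        by_contra hcon
        push Not at hcon
        obtain ⟨t, h1, h2⟩ := htw k g j x hg2 hx hx'
        have h3 := h k (hk.trans hij) g (hg.trans hij) hg2 _ t (fun s => ⟨(h1 s).1, fun y hy hsy => by
          by_contra h4
          push Not at h4
          have h5 := hκ' _ g c (t s) y hg2 (h1 s).1 hy hsy h4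
          rw [(h1 s).2] at h5
          have h6 : (κ ((ext (k, j), g), c) : ℝ) ≤ (mxAll ext κ ((i, j), c) : ℝ) := by
            exact_mod_cast le_mxAll ext κ hk hg
          exact absurd hcon (not_lt.2 (h5.trans h6))⟩) h2
        have h4 : b k ≤ mxx (fun u : ℕ × ℕ => b u.2) 0 i :=
          le_mxx (fun u : ℕ × ℕ => b u.2) 0 hk
        have h5 : 2 ^ Nat.primeCounting j ≤
            2 ^ mxx (fun u : ℕ × ℕ => b u.2) 0 i * 2 ^ (Nat.primeCounting j - b k) := by
          rw [← pow_add]
          exact Nat.pow_le_pow_right (by norm_num) (by omega)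
        have h6 := Nat.mul_le_mul_left (2 ^ mxx (fun u : ℕ × ℕ => b u.2) 0 i) h3
        omega)
      l e he r hr F hF hdens hadv
    have h21 := (ExactReductions.result hD 0 3 1 le_rfl le_rfl).out 1 0
    refine h21.1 ⟨fun x => C (max x.1 x.2), ?_, fun k g x hg _ hx hx' _ => ?_⟩
    · have a1 : Computable fun x : ℕ × ℕ => max x.1 x.2 := Primrec.nat_max.to_comp
      exact hC.comp a1
    · exact hC' (max k g) k (le_max_left _ _) g (le_max_right _ _) hg x hx hx'
  tfae_finish

end Pool.Agent.Results.MP_f89135_nt.BoundedAdviceFewExceptions
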